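import Mathlib
import Pool.Agent.Helper205.HochDefs
import Pool.Agent.Helper205.HochN

set_option autoImplicit false

namespace Pool.Agent.Results.MP_067393_an.NonAmenable

open Pool.Agent.Helper205.Hoch

universe u

/-- There is a polynormed algebra `A` (complete, Hausdorff, locally convex over `ℂ`, with jointly
continuous multiplication) which is not amenable, although for every complete Hausdorff locally
convex bimodule `X` with jointly continuous actions the Hochschild complex exists and all its
homology spaces `H_k(A, X)`, `k ≥ 1`, vanish. (`A` is the algebra of finitely supported sequences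
with the finest locally convex topology.) -/
theorem result :
    ∃ (A : Type) (_ : NonUnitalRing A) (_ : Module ℂ A) (_ : IsScalarTower ℂ A A)
      (_ : SMulCommClass ℂ A A) (_ : UniformSpace A) (_ : IsUniformAddGroup A)
      (_ : PolynormableSpace ℂ A) (_ : T2Space A) (_ : CompleteSpace A) (_ : ContinuousMul A),
      ¬ Amenable.{0} A ∧
      ∀ (X : Type u) [AddCommGroup X] [Module ℂ X] [UniformSpace X] [IsUniformAddGroup X]
        [PolynormableSpace ℂ X] [T2Space X] [CompleteSpace X] (M : Bimod A X),
        Nonempty (HochschildComplex M) ∧
        ∀ (H : HochschildComplex M) (j : ℕ), HomologyVanishes H j :=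
  ⟨A0, inferInstance, inferInstance, inferInstance, inferInstance, inferInstance, inferInstance,
    inferInstance, inferInstance, inferInstance, inferInstance, not_amenable,
    fun _ _ _ _ _ _ _ _ M => ⟨⟨concrete M⟩, fun H j => vanishes H j⟩⟩

end Pool.Agent.Results.MP_067393_an.NonAmenable
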